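import Mathlib

/-!
# One exceptional set for countably many problems, no uniform exponent
-/

set_option autoImplicit false

namespace Pool.Agent.N751.UE

open Finset

/-- **the diagonal argument without a uniform exponent** -/
theorem diag2 {X : Type} (ht : X → ℝ) (hbox : ∀ H : ℝ, {x | ht x ≤ H}.Finite) (E : ℕ → Set X)
    {α : ℝ} (hE : ∀ n, ∃ C ν : ℝ, 0 < ν ∧ ∀ H : ℝ, 0 ≤ H →
      ((E n ∩ {x | ht x ≤ H}).ncard : ℝ) ≤ C * Real.exp ((α - ν) * H)) :
    ∃ (T : Set X) (h : ℕ → ℝ), (∀ n, ∀ x ∈ E n, x ∉ T → ht x < h n) ∧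
      ∀ H : ℝ, 0 ≤ H → ((T ∩ {x | ht x ≤ H}).ncard : ℝ) ≤ 2 * Real.exp (α * H - √H) := by
  classical
  choose C ν hν hE using hE
  obtain ⟨D, hD⟩ : ∃ D : ℕ → ℝ, D = fun n => max (C n) 1 := ⟨_, rfl⟩
  have hD1 : ∀ n, 1 ≤ D n := fun n => by rw [hD]; exact le_max_right _ _
  have hDC : ∀ n, C n ≤ D n := fun n => by rw [hD]; exact le_max_left _ _
  obtain ⟨h, hh⟩ : ∃ h : ℕ → ℝ, h = fun n => 4 / ν n ^ 2 +
    2 * (Real.log (D n) + n * Real.log 2) / ν n + n := ⟨_, rfl⟩
  have hl2 : 0 < Real.log 2 := Real.log_pos (by norm_num)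
  have hlD : ∀ n, 0 ≤ Real.log (D n) := fun n => Real.log_nonneg (hD1 n)
  have hn0 : ∀ n : ℕ, (0 : ℝ) ≤ n := fun n => Nat.cast_nonneg n
  have hA : ∀ n, 0 < 4 / ν n ^ 2 := fun n => by have := hν n; positivity
  have hB : ∀ n, 0 ≤ 2 * (Real.log (D n) + n * Real.log 2) / ν n := fun n => by
    have h1 := hν n
    have h2 := hlD n
    have h3 := hn0 n
    positivity
  have hhn : ∀ n : ℕ, (n : ℝ) < h n := by
    intro n
    rw [hh]
    beta_reduce
    linarith [hA n, hB n]
  have hkey : ∀ n, ∀ H : ℝ, h n ≤ H →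
      D n * Real.exp ((α - ν n) * H) ≤ (1 / 2) ^ n * Real.exp (α * H - √H) := by
    intro n H hH
    have hH0 : 0 < H := lt_of_lt_of_le (lt_of_le_of_lt (hn0 n) (hhn n)) hH
    rw [hh] at hH
    beta_reduce at hH
    have h0 : 0 < D n := by linarith [hD1 n]
    have h1 : 4 / ν n ^ 2 ≤ H := by linarith [hB n, hn0 n]
    have h2 : 2 * (Real.log (D n) + n * Real.log 2) / ν n ≤ H := by linarith [hA n, hn0 n]
    have h3 : √H ≤ ν n * H / 2 := by
      have h4 : 2 / ν n ≤ √H := by
        refine Real.le_sqrt_of_sq_le ?_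
        rw [div_pow]
        norm_num
        exact h1
      rw [div_le_iff₀ (hν n)] at h4
      have h5 : √H * √H = H := Real.mul_self_sqrt hH0.le
      have h6 : 0 ≤ √H := Real.sqrt_nonneg H
      have h7 : 2 * √H ≤ √H * ν n * √H := mul_le_mul_of_nonneg_right h4 h6
      have h8 : √H * ν n * √H = ν n * H := by
        rw [mul_right_comm, h5]
        ring
      linarith
    have h4 : Real.log (D n) + n * Real.log 2 ≤ ν n * H / 2 := by
      rw [div_le_iff₀ (hν n)] at h2
      linarith
    have e1 : D n = Real.exp (Real.log (D n)) := (Real.exp_log h0).symm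
    have e2 : ((1 : ℝ) / 2) ^ n = Real.exp (-(n * Real.log 2)) := by
      rw [Real.exp_neg, Real.exp_nat_mul, Real.exp_log (by norm_num), one_div, inv_pow]
    rw [e2, e1, ← Real.exp_add, ← Real.exp_add, Real.exp_le_exp]
    have e3 : (α - ν n) * H = α * H - ν n * H := by ring
    rw [e3]
    linarith
  refine ⟨⋃ n, E n ∩ {x | h n ≤ ht x}, h, ?_, ?_⟩
  · intro n x hx hxT
    by_contra hcon
    rw [not_lt] at hcon
    exact hxT (Set.mem_iUnion.2 ⟨n, hx, hcon⟩)
  · intro H hH
    obtain ⟨N, hN⟩ := exists_nat_gt H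
    have hNn : ∀ n, N ≤ n → H < h n := by
      intro n hn
      have h1 : (N : ℝ) ≤ n := by exact_mod_cast hn
      linarith [hhn n]
    -- the pieces
    let A : ℕ → Finset X := fun n =>
      if h n ≤ H then ((hbox H).subset (Set.inter_subset_right (s := E n))).toFinset else ∅
    have hsub : (⋃ n, E n ∩ {x | h n ≤ ht x}) ∩ {x | ht x ≤ H} ⊆
        (((Finset.range N).biUnion A : Finset X) : Set X) := by
      rintro x ⟨hx, hxH⟩
      obtain ⟨n, hxn, hn⟩ := Set.mem_iUnion.1 hx
      have hn' : h n ≤ ht x := hn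
      have hxH' : ht x ≤ H := hxH
      have hnH : h n ≤ H := hn'.trans hxH'
      rw [Finset.mem_coe, Finset.mem_biUnion]
      refine ⟨n, ?_, ?_⟩
      · rw [Finset.mem_range]
        by_contra hcon
        exact absurd hnH (not_le.2 (hNn n (not_lt.1 hcon)))
      · show x ∈ if h n ≤ H then _ else _
        rw [if_pos hnH, Set.Finite.mem_toFinset]
        exact ⟨hxn, hxH⟩
    have hcard : ∀ n, ((A n).card : ℝ) ≤ (1 / 2) ^ n * Real.exp (α * H - √H) := by
      intro n
      by_cases hn : h n ≤ H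
      · have h1 : (A n).card = (E n ∩ {x | ht x ≤ H}).ncard := by
          have e : A n = ((hbox H).subset (Set.inter_subset_right (s := E n))).toFinset := if_pos hn
          rw [e, Set.ncard_eq_toFinset_card _ ((hbox H).subset (Set.inter_subset_right (s := E n)))]
        rw [h1]
        refine (hE n H hH).trans ?_
        refine le_trans (mul_le_mul_of_nonneg_right (hDC n) (Real.exp_pos _).le) ?_
        exact hkey n H hn
      · have e : A n = ∅ := if_neg hn
        rw [e, Finset.card_empty, Nat.cast_zero]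
        positivity
    calc (((⋃ n, E n ∩ {x | h n ≤ ht x}) ∩ {x | ht x ≤ H}).ncard : ℝ)
        ≤ (((((Finset.range N).biUnion A : Finset X) : Set X)).ncard : ℝ) := by
          exact_mod_cast Set.ncard_le_ncard hsub (Finset.finite_toSet _)
      _ = (((Finset.range N).biUnion A).card : ℝ) := by rw [Set.ncard_coe_finset]
      _ ≤ ∑ n ∈ Finset.range N, ((A n).card : ℝ) := by exact_mod_cast Finset.card_biUnion_le
      _ ≤ ∑ n ∈ Finset.range N, (1 / 2) ^ n * Real.exp (α * H - √H) :=
          Finset.sum_le_sum fun n _ => hcard n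
      _ = (∑ n ∈ Finset.range N, (1 / 2 : ℝ) ^ n) * Real.exp (α * H - √H) := by
          rw [Finset.sum_mul]
      _ ≤ 2 * Real.exp (α * H - √H) := by
          refine mul_le_mul_of_nonneg_right ?_ (Real.exp_pos _).le
          have h1 := summable_geometric_two.sum_le_tsum (Finset.range N)
            (fun n _ => by positivity)
          rw [tsum_geometric_two] at h1
          exact h1

end Pool.Agent.N751.UE
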