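import Mathlib
import Pool.Agent.Results.MP_651af7_nt.OneExceptionalSet
import Pool.Agent.N753.LS.SetE

/-!
# The counting functions and the heights
-/

set_option autoImplicit false

namespace Pool.Agent.N751.UE

open NumberField IsDedekindDomain Finset Height
open Pool.Agent.Results.MP_651af7_nt.OneExceptionalSet (counting Tuples counting_eq form_iff)
open Pool.Agent.Y728.MN (vs wt nr_fin counting_vs mem_vs wt_mono wt_biUnion_le stN_pt)

variable {K : Type} [Field K] [NumberField K]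

open Classical in
/-- the counting function is bounded by the height -/
theorem cnt_le {q : ℕ} (a : Fin q → K) : ∃ C0 : ℝ, 0 ≤ C0 ∧ ∀ x : K, (∀ j, x ≠ a j) →
    counting a x ≤ q * logHeight₁ x + C0 := by
  refine ⟨∑ j, (logHeight (Pool.Agent.Y728.AK.pK (a j)) + totalWeight K * Real.log 2), ?_, ?_⟩
  · refine Finset.sum_nonneg fun j _ => ?_
    have h1 := logHeight_nonneg (Pool.Agent.Y728.AK.pK (a j))
    have h2 := Real.log_nonneg (by norm_num : (1 : ℝ) ≤ 2)
    positivity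
  intro x hx
  have hf : ∀ j, Pool.Agent.TH876.KR.form (Pool.Agent.Y728.AK.pK (a j))
      (Pool.Agent.Y728.MN.pt x) ≠ 0 := fun j => form_iff.2 (hx j)
  rw [counting_eq a hx, counting_vs (Pool.Agent.Y557.OE.noS K)
    (fun j => Pool.Agent.Y728.AK.pK (a j)) hf]
  have h1 : vs (Pool.Agent.Y557.OE.noS K) (fun j => Pool.Agent.Y728.AK.pK (a j)) x ⊆
      Finset.univ.biUnion fun j => (nr_fin (hf j)).toFinset := by
    intro v hv
    obtain ⟨-, j, hj⟩ := (mem_vs (Pool.Agent.Y557.OE.noS K)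
      (fun j => Pool.Agent.Y728.AK.pK (a j)) hf).1 hv
    exact Finset.mem_biUnion.2 ⟨j, Finset.mem_univ _, (Set.Finite.mem_toFinset _).2 hj⟩
  have h2 : ∀ j, wt (nr_fin (hf j)).toFinset ≤ logHeight (Pool.Agent.Y728.AK.pK (a j)) +
      logHeight₁ x + totalWeight K * Real.log 2 := fun j => stN_pt a j x (hf j)
  calc wt (vs (Pool.Agent.Y557.OE.noS K) (fun j => Pool.Agent.Y728.AK.pK (a j)) x) ≤
        ∑ j, wt (nr_fin (hf j)).toFinset := (wt_mono h1).trans (wt_biUnion_le _ _)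
    _ ≤ ∑ j, (logHeight (Pool.Agent.Y728.AK.pK (a j)) + logHeight₁ x +
          totalWeight K * Real.log 2) := Finset.sum_le_sum fun j _ => h2 j
    _ = _ := by
        rw [Finset.sum_add_distrib, Finset.sum_add_distrib, Finset.sum_add_distrib,
          Finset.sum_const, Finset.card_univ, Fintype.card_fin, nsmul_eq_mul]
        ring

/-- a set with few tuples of small counting functions has few tuples of small height -/
theorem few {m q : ℕ} (hq : 3 ≤ q) (a : Fin q → ℚ) {E : Set (Fin m → K)}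
    (hfin : ∀ X : ℝ, 1 ≤ X → (Tuples K m a X).Finite)
    (hE : ∃ ν C : ℝ, 0 < ν ∧ 0 < C ∧ ∀ X : ℝ, 1 ≤ X →
      ((E ∩ Tuples K m a X).ncard : ℝ) ≤ C * X ^ (2 * m / (q : ℝ) - ν)) :
    ∃ C ν : ℝ, 0 < ν ∧ ∀ H : ℝ, 0 ≤ H →
      (((E ∩ {x | ∀ i j, x i ≠ algebraMap ℚ K (a j)}) ∩
        {x | Pool.Agent.N753.LS.htm x ≤ H}).ncard : ℝ) ≤ C * Real.exp ((2 * m - ν) * H) := by
  obtain ⟨ν, C, hν, hC, h⟩ := hE
  obtain ⟨C0, hC0, hcnt⟩ := cnt_le (fun j => algebraMap ℚ K (a j))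
  have hqR : (3 : ℝ) ≤ q := by exact_mod_cast hq
  have hq0 : (0 : ℝ) < q := by linarith
  refine ⟨C * Real.exp (C0 * (2 * m / (q : ℝ) - ν)), ν * q, by positivity, fun H hH => ?_⟩
  have hX1 : 1 ≤ Real.exp (q * H + C0) := Real.one_le_exp (by positivity)
  have hsub : (E ∩ {x | ∀ i j, x i ≠ algebraMap ℚ K (a j)}) ∩
      {x | Pool.Agent.N753.LS.htm x ≤ H} ⊆ E ∩ Tuples K m a (Real.exp (q * H + C0)) := by
    rintro x ⟨⟨hxE, hxa⟩, hxH⟩
    refine ⟨hxE, fun i => ⟨hxa i, ?_⟩⟩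
    rw [Real.log_exp]
    have h1 : logHeight₁ (x i) ≤ H := (Pool.Agent.N753.LS.le_htm x i).trans hxH
    have h2 : (q : ℝ) * logHeight₁ (x i) ≤ q * H := mul_le_mul_of_nonneg_left h1 hq0.le
    exact (hcnt (x i) (hxa i)).trans (by linarith)
  have h1 := h _ hX1
  have h2 : Real.exp (q * H + C0) ^ (2 * m / (q : ℝ) - ν) =
      Real.exp (C0 * (2 * m / (q : ℝ) - ν)) * Real.exp ((2 * m - ν * q) * H) := by
    rw [← Real.exp_mul, ← Real.exp_add]
    congr 1
    field_simp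
    ring
  rw [h2, ← mul_assoc] at h1
  refine le_trans ?_ h1
  exact_mod_cast Set.ncard_le_ncard hsub ((hfin _ hX1).inter_of_right E)

end Pool.Agent.N751.UE
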