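import Mathlib
import Pool.Agent.Helper259.HtExt

/-!
# A trivial bound for the proximity functions of the points over a given point
-/

set_option autoImplicit false

namespace Pool.Agent.N751.UE

open NumberField IsDedekindDomain Finset Height

theorem finsum_mono' {α : Type} {f g : α → ℝ} (hg : g.support.Finite) (h0 : ∀ a, 0 ≤ f a)
    (h : ∀ a, f a ≤ g a) : ∑ᶠ a, f a ≤ ∑ᶠ a, g a := by
  have hf : f.support ⊆ g.support := by
    intro a ha hg0
    rw [Function.mem_support] at ha
    exact ha (le_antisymm ((h a).trans hg0.le) (h0 a))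
  rw [finsum_eq_sum_of_support_subset f (s := hg.toFinset) (by simpa using hf),
    finsum_eq_sum_of_support_subset g (s := hg.toFinset) (by simp)]
  exact Finset.sum_le_sum fun a _ => h a

theorem posLog_fin (L : Type) [Field L] [NumberField L] (z : L) :
    (Function.support fun v : HeightOneSpectrum (𝓞 L) =>
      Real.posLog (FinitePlace.mk v z)).Finite := by
  by_cases hz : z = 0
  · subst hz
    convert Set.finite_empty
    rw [Function.support_eq_empty_iff]
    funext v
    simp [Real.posLog]
  have h1 : (Function.mulSupport fun w : FinitePlace L => w z).Finite :=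
    FinitePlace.hasFiniteMulSupport hz
  refine (h1.image FinitePlace.equivHeightOneSpectrum).subset ?_
  intro v hv
  rw [Function.mem_support] at hv
  refine ⟨FinitePlace.mk v, ?_, ?_⟩
  · rw [Function.mem_mulSupport]
    intro h
    apply hv
    rw [h]
    simp [Real.posLog]
  · show FinitePlace.equivHeightOneSpectrum (FinitePlace.mk v) = v
    exact FinitePlace.equivHeightOneSpectrum.apply_eq_iff_eq_symm_apply.2 rfl

theorem logHeight₁_sum (L : Type) [Field L] [NumberField L] (z : L) :
    logHeight₁ z = ∑ w : InfinitePlace L, (w.mult : ℝ) * Real.posLog (w z) +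
      ∑ᶠ v : HeightOneSpectrum (𝓞 L), Real.posLog (FinitePlace.mk v z) := by
  rw [NumberField.logHeight₁_eq, ← finsum_comp_equiv FinitePlace.equivHeightOneSpectrum.symm]
  rfl

theorem logHeight₁_ext' {K L : Type} [Field K] [NumberField K] [Field L] [NumberField L]
    [Algebra K L] (z : K) :
    logHeight₁ (algebraMap K L z) = Module.finrank K L * logHeight₁ z := by
  have h := Pool.Agent.Helper259.HtExt.logHeight_ext (L := L) (![z, 1] : Fin 2 → K)
  rw [logHeight₁_eq_logHeight, logHeight₁_eq_logHeight z, ← h]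
  congr 1
  funext i
  fin_cases i <;> simp

/-- `max (0, - log max_l c_l)` -/
noncomputable def minusLog {s : ℕ} (c : Fin (s + 1) → ℝ) : ℝ := max 0 (-Real.log (⨆ l, c l))

theorem minusLog_nonneg {s : ℕ} (c : Fin (s + 1) → ℝ) : 0 ≤ minusLog c := le_max_left _ _

theorem minusLog_le {L : Type} [Field L] (f : AbsoluteValue L ℝ) {s : ℕ}
    (y : Fin (s + 1) → L) {z : L} (hz : z ≠ 0) (hy : y 0 = z) :
    minusLog (fun l => f (y l)) ≤ Real.posLog (f z⁻¹) := by
  unfold minusLog Real.posLog
  refine max_le_max le_rfl ?_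
  have h1 : f z ≤ ⨆ l, f (y l) := by
    rw [← hy]
    exact le_ciSup (f := fun l => f (y l)) (Set.finite_range _).bddAbove 0
  rw [map_inv₀, Real.log_inv]
  exact neg_le_neg (Real.log_le_log (f.pos hz) h1)

/-- the bound -/
theorem prox_triv {K L : Type} [Field K] [NumberField K] [Field L] [NumberField L] [Algebra K L]
    {m q : ℕ} (u : Fin m → Fin q → ℕ) (y : ∀ i j, Fin (u i j + 1) → L) (z : Fin m → Fin q → K)
    (hz : ∀ i j, z i j ≠ 0) (hy : ∀ i j, y i j 0 = algebraMap K L (z i j))
    (P : HeightOneSpectrum (𝓞 L) → Prop) [DecidablePred P] :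
    (∑ w : InfinitePlace L, (w.mult : ℝ) * (∑ i, ∑ j, minusLog (fun l => w (y i j l))) +
      ∑ᶠ v : HeightOneSpectrum (𝓞 L), if P v then
        (∑ i, ∑ j, minusLog (fun l => FinitePlace.mk v (y i j l))) else 0) /
          Module.finrank ℚ L ≤ (∑ i, ∑ j, logHeight₁ (z i j)) / Module.finrank ℚ K := by
  have hK : (0 : ℝ) < Module.finrank ℚ K := by exact_mod_cast Module.finrank_pos
  have hfd : FiniteDimensional K L := Module.Finite.of_restrictScalars_finite ℚ K L
  have hKL : (0 : ℝ) < Module.finrank K L := by exact_mod_cast Module.finrank_pos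
  have htow : (Module.finrank ℚ L : ℝ) = Module.finrank ℚ K * Module.finrank K L := by
    exact_mod_cast (Module.finrank_mul_finrank ℚ K L).symm
  have hzL : ∀ i j, algebraMap K L (z i j) ≠ 0 := fun i j => by
    rw [Ne, map_eq_zero]
    exact hz i j
  have h1 : ∑ w : InfinitePlace L, (w.mult : ℝ) * (∑ i, ∑ j, minusLog (fun l => w (y i j l))) ≤
      ∑ i, ∑ j, ∑ w : InfinitePlace L, (w.mult : ℝ) *
        Real.posLog (w (algebraMap K L (z i j))⁻¹) := by
    calc ∑ w : InfinitePlace L, (w.mult : ℝ) * (∑ i, ∑ j, minusLog (fun l => w (y i j l))) ≤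
          ∑ w : InfinitePlace L, ∑ i, ∑ j, (w.mult : ℝ) *
            Real.posLog (w (algebraMap K L (z i j))⁻¹) := by
          refine Finset.sum_le_sum fun w _ => ?_
          rw [Finset.mul_sum]
          refine Finset.sum_le_sum fun i _ => ?_
          rw [Finset.mul_sum]
          refine Finset.sum_le_sum fun j _ => ?_
          exact mul_le_mul_of_nonneg_left (minusLog_le w.1 (y i j) (hzL i j) (hy i j))
            (Nat.cast_nonneg _)
      _ = _ := by
          rw [Finset.sum_comm]
          refine Finset.sum_congr rfl fun i _ => ?_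
          rw [Finset.sum_comm]
  have hfin : ∀ i j, (Function.support fun v : HeightOneSpectrum (𝓞 L) =>
      Real.posLog (FinitePlace.mk v (algebraMap K L (z i j))⁻¹)).Finite := fun i j =>
    posLog_fin L _
  have h2 : (∑ᶠ v : HeightOneSpectrum (𝓞 L), if P v then
        (∑ i, ∑ j, minusLog (fun l => FinitePlace.mk v (y i j l))) else 0) ≤
      ∑ᶠ v : HeightOneSpectrum (𝓞 L), ∑ i, ∑ j,
        Real.posLog (FinitePlace.mk v (algebraMap K L (z i j))⁻¹) := by
    refine finsum_mono' ?_ ?_ ?_
    · refine (Set.finite_iUnion fun i => Set.finite_iUnion fun j => hfin i j).subset ?_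
      intro v hv
      rw [Function.mem_support] at hv
      by_contra hcon
      apply hv
      refine Finset.sum_eq_zero fun i _ => Finset.sum_eq_zero fun j _ => ?_
      by_contra h3
      exact hcon (Set.mem_iUnion.2 ⟨i, Set.mem_iUnion.2 ⟨j, h3⟩⟩)
    · intro v
      split_ifs
      · exact Finset.sum_nonneg fun i _ => Finset.sum_nonneg fun j _ => minusLog_nonneg _
      · exact le_rfl
    · intro v
      split_ifs
      · refine Finset.sum_le_sum fun i _ => Finset.sum_le_sum fun j _ => ?_
        exact minusLog_le (FinitePlace.mk v).1 (y i j) (hzL i j) (hy i j)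
      · exact Finset.sum_nonneg fun i _ => Finset.sum_nonneg fun j _ => Real.posLog_nonneg
  have h3 : (∑ᶠ v : HeightOneSpectrum (𝓞 L), ∑ i, ∑ j,
      Real.posLog (FinitePlace.mk v (algebraMap K L (z i j))⁻¹)) = ∑ i, ∑ j,
        ∑ᶠ v : HeightOneSpectrum (𝓞 L),
          Real.posLog (FinitePlace.mk v (algebraMap K L (z i j))⁻¹) := by
    rw [finsum_sum_comm]
    · refine Finset.sum_congr rfl fun i _ => ?_
      rw [finsum_sum_comm]
      exact fun j _ => hfin i j
    · intro i _
      refine (Set.finite_iUnion fun j => hfin i j).subset ?_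
      intro v hv
      rw [Function.mem_support] at hv
      by_contra hcon
      apply hv
      refine Finset.sum_eq_zero fun j _ => ?_
      by_contra h3
      exact hcon (Set.mem_iUnion.2 ⟨j, h3⟩)
  have h4 : ∀ i j, ∑ w : InfinitePlace L, (w.mult : ℝ) *
        Real.posLog (w (algebraMap K L (z i j))⁻¹) + ∑ᶠ v : HeightOneSpectrum (𝓞 L),
          Real.posLog (FinitePlace.mk v (algebraMap K L (z i j))⁻¹) =
      Module.finrank K L * logHeight₁ (z i j) := by
    intro i j
    rw [← logHeight₁_sum, logHeight₁_inv, logHeight₁_ext']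
  have h5 : ∑ i, ∑ j, (Module.finrank K L : ℝ) * logHeight₁ (z i j) =
      Module.finrank K L * ∑ i, ∑ j, logHeight₁ (z i j) := by
    rw [Finset.mul_sum]
    refine Finset.sum_congr rfl fun i _ => ?_
    rw [Finset.mul_sum]
  have h6 : (∑ w : InfinitePlace L, (w.mult : ℝ) *
      (∑ i, ∑ j, minusLog (fun l => w (y i j l))) +
      ∑ᶠ v : HeightOneSpectrum (𝓞 L), if P v then
        (∑ i, ∑ j, minusLog (fun l => FinitePlace.mk v (y i j l))) else 0) ≤
      Module.finrank K L * ∑ i, ∑ j, logHeight₁ (z i j) := by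
    rw [← h5]
    refine (add_le_add h1 (h2.trans h3.le)).trans (le_of_eq ?_)
    rw [← Finset.sum_add_distrib]
    refine Finset.sum_congr rfl fun i _ => ?_
    rw [← Finset.sum_add_distrib]
    exact Finset.sum_congr rfl fun j _ => h4 i j
  rw [htow]
  refine (div_le_div_of_nonneg_right h6 (by positivity)).trans (le_of_eq ?_)
  field_simp

end Pool.Agent.N751.UE
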