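import Mathlib
import Pool.Agent.N751.UE.Diag2
import Pool.Agent.N751.PR.Bad

/-!
# The universal exceptional set
-/

set_option autoImplicit false

namespace Pool.Agent.N751.UE

open NumberField Finset Height MvPolynomial Pool.Agent.N753.LS Pool.Agent.N751.PR
  Pool.Agent.H691R3

variable (K : Type) [Field K] [NumberField K]

/-- the property of the exceptional set for the proximity functions -/
def PropB {m : ℕ} (ε : ℝ) (E : Set (Fin m → K)) : Prop :=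
  ∀ q : ℕ, 1 ≤ q → ∀ (G : MvPolynomial (Fin m) K), (∀ i, degreeOf i G ≤ q) →
    ∀ V : Finset (Pl K), ∃ c : ℝ, ∀ x : Fin m → K, x ∉ E → eval x G ≠ 0 →
      ∑ v ∈ V, lamG q G v x ≤ ε * q * htm x + c

/-- **the universal exceptional set** -/
theorem exists_univ {m : ℕ} (hm : 0 < m)
    (P : ∀ (q : ℕ), (Fin q → ℚ) → ℝ → Set (Fin m → K) → Prop)
    (R : ∀ (q : ℕ), (Fin q → ℚ) → Set (Fin m → K))
    (hP : ∀ q : ℕ, 3 ≤ q → ∀ a : Fin q → ℚ, Function.Injective a → ∀ κ : ℝ, 0 < κ →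
      ∃ E : Set (Fin m → K), P q a κ E ∧ ∃ C ν : ℝ, 0 < ν ∧ ∀ H : ℝ, 0 ≤ H →
        (((E ∩ R q a) ∩ {x | htm x ≤ H}).ncard : ℝ) ≤ C * Real.exp ((2 * m - ν) * H)) :
    ∃ E : Set (Fin m → K), (∀ H : ℝ, 0 ≤ H →
      ((E ∩ {x | htm x ≤ H}).ncard : ℝ) ≤ 2 * Real.exp (2 * m * H - √H)) ∧
      (∀ q : ℕ, 3 ≤ q → ∀ a : Fin q → ℚ, Function.Injective a → ∀ κ : ℝ, 0 < κ →
        ∃ (κ' : ℝ) (E' : Set (Fin m → K)), 0 < κ' ∧ κ' ≤ κ ∧ P q a κ' E' ∧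
          ((E' ∩ R q a) \ E).Finite) ∧
      ∀ ε : ℝ, 0 < ε → ∃ (ε' : ℝ) (E' : Set (Fin m → K)), 0 < ε' ∧ ε' ≤ ε ∧ PropB K ε' E' ∧
        (E' \ E).Finite := by
  classical
  have hinv : ∀ j : ℕ, (0 : ℝ) < 1 / ((j : ℝ) + 1) := fun j => by positivity
  -- the sets of the first kind
  have h1 : ∀ (p : (Σ q : ℕ, Fin q → ℚ) × ℕ), ∃ E : Set (Fin m → K),
      ((3 ≤ p.1.1 ∧ Function.Injective p.1.2) → P p.1.1 p.1.2 (1 / ((p.2 : ℝ) + 1)) E) ∧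
      ∃ C ν : ℝ, 0 < ν ∧ ∀ H : ℝ, 0 ≤ H →
        (((E ∩ R p.1.1 p.1.2) ∩ {x | htm x ≤ H}).ncard : ℝ) ≤
          C * Real.exp ((2 * m - ν) * H) := by
    intro p
    by_cases h : 3 ≤ p.1.1 ∧ Function.Injective p.1.2
    · obtain ⟨E, hE1, hE2⟩ := hP p.1.1 h.1 p.1.2 h.2 _ (hinv p.2)
      exact ⟨E, fun _ => hE1, hE2⟩
    · refine ⟨∅, fun h' => absurd h' h, 0, 1, one_pos, fun H hH => ?_⟩
      rw [Set.empty_inter, Set.empty_inter, Set.ncard_empty, Nat.cast_zero, zero_mul]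
  choose EA hEA1 hEA2 using h1
  -- the sets of the second kind
  have h2 : ∀ j : ℕ, ∃ E : Set (Fin m → K), PropB K (1 / ((j : ℝ) + 1)) E ∧
      ∃ C ν : ℝ, 0 < ν ∧ ∀ H : ℝ, 0 ≤ H →
        ((E ∩ {x | htm x ≤ H}).ncard : ℝ) ≤ C * Real.exp ((2 * m - ν) * H) := by
    intro j
    obtain ⟨E, ⟨ν, C, hν, hE1⟩, hE2⟩ := exists_E3 K hm (hinv j)
    exact ⟨E, hE2, C, ν, hν, hE1⟩
  choose EB hEB1 hEB2 using h2
  obtain ⟨e, he⟩ : ∃ e : ℕ → ((Σ q : ℕ, Fin q → ℚ) × ℕ) ⊕ ℕ, Function.Surjective e :=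
    exists_surjective_nat _
  obtain ⟨T, h, hT1, hT2⟩ := diag2 (X := Fin m → K) (fun x => htm x) (fun H => box_fin H)
    (fun n => Sum.elim (fun p => EA p ∩ R p.1.1 p.1.2) (fun j => EB j) (e n)) (α := 2 * m) (by
      intro n
      rcases e n with p | j
      · exact hEA2 p
      · exact hEB2 j)
  refine ⟨T, hT2, ?_, ?_⟩
  · intro q hq a ha κ hκ
    obtain ⟨j, hj⟩ := exists_nat_one_div_lt hκ
    obtain ⟨n, hn⟩ := he (Sum.inl (⟨q, a⟩, j))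
    refine ⟨1 / ((j : ℝ) + 1), EA (⟨q, a⟩, j), hinv j, hj.le, hEA1 (⟨q, a⟩, j) ⟨hq, ha⟩, ?_⟩
    refine (box_fin (h n)).subset ?_
    rintro x ⟨hx, hxT⟩
    have h3 := hT1 n x (by rw [hn]; exact hx) hxT
    exact le_of_lt h3
  · intro ε hε
    obtain ⟨j, hj⟩ := exists_nat_one_div_lt hε
    obtain ⟨n, hn⟩ := he (Sum.inr j)
    refine ⟨1 / ((j : ℝ) + 1), EB j, hinv j, hj.le, hEB1 j, ?_⟩
    refine (box_fin (h n)).subset ?_
    rintro x ⟨hx, hxT⟩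
    have h3 := hT1 n x (by rw [hn]; exact hx) hxT
    exact le_of_lt h3

end Pool.Agent.N751.UE
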